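import Pool.Agent.H586.GLU.Stm

/-!
# GLU-PERT: the abstract perturbation lemma (project GLU of helper586)
-/

set_option autoImplicit false

open MeasureTheory

namespace Pool.Agent.H23.GLU

open Pool.Agent.H586.GLU

/-- bounded measurable functions -/
def Gf {Ω : Type} [MeasurableSpace Ω] (f : Ω → ℝ) : Prop := Measurable f ∧ ∃ C, ∀ ω, |f ω| ≤ C

section
variable {Ω : Type} [MeasurableSpace Ω] {f g : Ω → ℝ}

theorem Gf.add (hf : Gf f) (hg : Gf g) : Gf (fun ω => f ω + g ω) := by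
  obtain ⟨C, hC⟩ := hf.2
  obtain ⟨D, hD⟩ := hg.2
  exact ⟨hf.1.add hg.1, C + D, fun ω => (abs_add_le _ _).trans (add_le_add (hC ω) (hD ω))⟩

theorem Gf.sub (hf : Gf f) (hg : Gf g) : Gf (fun ω => f ω - g ω) := by
  obtain ⟨C, hC⟩ := hf.2
  obtain ⟨D, hD⟩ := hg.2
  exact ⟨hf.1.sub hg.1, C + D, fun ω => (abs_sub _ _).trans (add_le_add (hC ω) (hD ω))⟩

theorem Gf.mul (hf : Gf f) (hg : Gf g) : Gf (fun ω => f ω * g ω) := by
  obtain ⟨C, hC⟩ := hf.2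
  obtain ⟨D, hD⟩ := hg.2
  refine ⟨hf.1.mul hg.1, C * D, fun ω => ?_⟩
  rw [abs_mul]
  exact mul_le_mul (hC ω) (hD ω) (abs_nonneg _) ((abs_nonneg _).trans (hC ω))

theorem Gf.cst (c : ℝ) : Gf (fun _ : Ω => c) := ⟨measurable_const, |c|, fun _ => le_rfl⟩

theorem Gf.cmul (hf : Gf f) (c : ℝ) : Gf (fun ω => c * f ω) := (Gf.cst c).mul hf

theorem Gf.int (hf : Gf f) (μ : Measure Ω) [IsProbabilityMeasure μ] : Integrable f μ := by
  obtain ⟨C, hC⟩ := hf.2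
  exact Integrable.of_bound hf.1.aestronglyMeasurable C (Filter.Eventually.of_forall hC)

end

/-- the pointwise bound of the error -/
theorem err_le {K n β x1 x2 x3 y1 y2 y3 y4 y5 z1 z2 : ℝ} (hβ : 0 ≤ β)
    (h1 : |x1| ≤ K ^ 3 * n) (h2 : |x2| ≤ K ^ 3 * n) (h3 : |x3| ≤ 2 * K ^ 3 * n)
    (k1 : |y1| ≤ 2 * K ^ 4 * n ^ 3) (k2 : |y2| ≤ 2 * K ^ 4 * n ^ 3) (k3 : |y3| ≤ K ^ 4 * n ^ 3)
    (k4 : |y4| ≤ 2 * K ^ 4 * n ^ 3) (k5 : |y5| ≤ 4 * K ^ 4 * n ^ 3)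
    (l1 : |z1| ≤ 2 * K ^ 4 * n ^ 5) (l2 : |z2| ≤ K ^ 4 * n ^ 5) :
    |x1 + x2 - x3 - β * y1 - β * y2 - β * y3 - β * y4 + β * y5 + β ^ 2 * z1 - β ^ 2 * z2| ≤
      4 * K ^ 3 * n + 11 * K ^ 4 * β * n ^ 3 + 3 * K ^ 4 * β ^ 2 * n ^ 5 := by
  have hβ2 : 0 ≤ β ^ 2 := by positivity
  rw [abs_le] at *
  have a1 := mul_le_mul_of_nonneg_left k1.1 hβ
  have a1' := mul_le_mul_of_nonneg_left k1.2 hβ
  have a2 := mul_le_mul_of_nonneg_left k2.1 hβ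
  have a2' := mul_le_mul_of_nonneg_left k2.2 hβ
  have a3 := mul_le_mul_of_nonneg_left k3.1 hβ
  have a3' := mul_le_mul_of_nonneg_left k3.2 hβ
  have a4 := mul_le_mul_of_nonneg_left k4.1 hβ
  have a4' := mul_le_mul_of_nonneg_left k4.2 hβ
  have a5 := mul_le_mul_of_nonneg_left k5.1 hβ
  have a5' := mul_le_mul_of_nonneg_left k5.2 hβ
  have b1 := mul_le_mul_of_nonneg_left l1.1 hβ2
  have b1' := mul_le_mul_of_nonneg_left l1.2 hβ2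
  have b2 := mul_le_mul_of_nonneg_left l2.1 hβ2
  have b2' := mul_le_mul_of_nonneg_left l2.2 hβ2
  constructor <;> linarith [h1.1, h1.2, h2.1, h2.2, h3.1, h3.2]

/-- products of bounded numbers -/
theorem mul_le' {a b A B : ℝ} (ha : |a| ≤ A) (hb : |b| ≤ B) : |a * b| ≤ A * B := by
  rw [abs_mul]
  exact mul_le_mul ha hb (abs_nonneg _) ((abs_nonneg _).trans ha)

theorem pert : S_PERT := by
  intro Ω E _ _ _ μ _ Y ν β K M p c1 c2 c3 T1 T2 T3 B1 B2 B3 q1 q2 q3 h1 h2 h3 hK hβ hM hp hν hYK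
    hνm hbad ml mq D1 D2 D3 e21 e31 e32
  have hK0 : 0 ≤ K := by linarith
  have hn0 : ∀ ω, 0 ≤ ν (Y ω) := fun ω => hν _
  -- bounded measurable functions
  have gl : ∀ (l : E →ₗ[ℝ] ℝ) (C : ℝ), (∀ A, |l A| ≤ C * ν A) → Gf (fun ω => l (Y ω)) := by
    intro l C hC
    refine ⟨ml l ⟨C, hC⟩, |C| * K, fun ω => (hC _).trans ?_⟩
    exact mul_le_mul (le_abs_self C) (hYK ω) (hn0 ω) (abs_nonneg C)
  have gk : ∀ (k : E →ₗ[ℝ] E →ₗ[ℝ] ℝ) (C : ℝ), (∀ A A', |k A A'| ≤ C * ν A * ν A') →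
      Gf (fun ω => k (Y ω) (Y ω)) := by
    intro k C hC
    refine ⟨mq k ⟨C, hC⟩, |C| * K * K, fun ω => (hC _ _).trans ?_⟩
    refine mul_le_mul ?_ (hYK ω) (hn0 ω) (by positivity)
    exact mul_le_mul (le_abs_self C) (hYK ω) (hn0 ω) (abs_nonneg C)
  have gr : ∀ {c : E} {T : E →ₗ[ℝ] E} {B : E →ₗ[ℝ] ℝ} {q : E →ₗ[ℝ] E →ₗ[ℝ] ℝ} {h : Ω → ℝ},
      Dir μ Y ν β K c T B q h →
      Gf (fun ω => h ω - B (Y ω) - q (Y ω) (Y ω)) ∧ Gf h := by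
    intro c T B q h D
    have a1 := gl B K D.B_le
    have a2 := gk q K D.q_le
    have a3 : Gf (fun ω => h ω - B (Y ω) - q (Y ω) (Y ω)) := by
      refine ⟨(D.h_meas.sub a1.1).sub a2.1, K * K ^ 3, fun ω => (D.h_le ω).trans ?_⟩
      exact mul_le_mul_of_nonneg_left (pow_le_pow_left₀ (hn0 ω) (hYK ω) 3) hK0
    refine ⟨a3, ?_⟩
    have a4 := (a3.add a1).add a2
    refine (congrArg Gf (funext fun ω => ?_)).mp a4
    ring
  obtain ⟨gr1, gh1⟩ := gr D1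
  obtain ⟨gr2, gh2⟩ := gr D2
  obtain ⟨gr3, gh3⟩ := gr D3
  -- the linear functionals
  obtain ⟨l2, hl2⟩ : ∃ l, l = B2.comp T1 := ⟨_, rfl⟩
  obtain ⟨l3, hl3⟩ : ∃ l, l = B3.comp T1 := ⟨_, rfl⟩
  obtain ⟨m, hm⟩ : ∃ l, l = q1 c2 + q1.flip c2 := ⟨_, rfl⟩
  have l2a : ∀ A, l2 A = B2 (T1 A) := fun A => by rw [hl2]; rfl
  have l3a : ∀ A, l3 A = B3 (T1 A) := fun A => by rw [hl3]; rfl
  have ma : ∀ A, m A = q1 c2 A + q1 A c2 := fun A => by rw [hm]; rfl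
  have cT : ∀ {l : E →ₗ[ℝ] ℝ} {T : E →ₗ[ℝ] E} {C : ℝ}, 0 ≤ C → (∀ A, |l A| ≤ C * ν A) →
      (∀ A, ν (T A) ≤ K * ν A) → ∀ A, |l (T A)| ≤ C * K * ν A := by
    intro l T C hC0 hC hT A
    refine (hC _).trans ?_
    rw [mul_assoc]
    exact mul_le_mul_of_nonneg_left (hT A) hC0
  have l2b : ∀ A, |l2 A| ≤ K ^ 2 * ν A := fun A => by
    rw [l2a, pow_two]
    exact cT hK0 D2.B_le D1.T_le A
  have l3b : ∀ A, |l3 A| ≤ K ^ 2 * ν A := fun A => by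
    rw [l3a, pow_two]
    exact cT hK0 D3.B_le D1.T_le A
  have mb : ∀ A, |m A| ≤ 2 * K ^ 2 * ν A := fun A => by
    rw [ma]
    have a1 : |q1 c2 A| ≤ K * K * ν A := (D1.q_le c2 A).trans (by
      refine mul_le_mul_of_nonneg_right ?_ (hν A)
      exact mul_le_mul_of_nonneg_left D2.c_le hK0)
    have a2 : |q1 A c2| ≤ K * ν A * K := (D1.q_le A c2).trans
      (mul_le_mul_of_nonneg_left D2.c_le (mul_nonneg hK0 (hν A)))
    refine (abs_add_le _ _).trans ?_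
    linarith
  have K2 : 0 ≤ K ^ 2 := by positivity
  have l2T : ∀ A, |l2 (T3 A)| ≤ K ^ 3 * ν A := fun A => by
    have := cT K2 l2b D3.T_le A
    rwa [← pow_succ] at this
  have l3T : ∀ A, |l3 (T2 A)| ≤ K ^ 3 * ν A := fun A => by
    have := cT K2 l3b D2.T_le A
    rwa [← pow_succ] at this
  have mT : ∀ A, |m (T3 A)| ≤ 2 * K ^ 3 * ν A := fun A => by
    have := cT (by positivity) mb D3.T_le A
    refine this.trans (le_of_eq ?_)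
    ring
  have bT : ∀ A, |B3 (T2 A)| ≤ K ^ 2 * ν A := fun A => by
    rw [pow_two]
    exact cT hK0 D3.B_le D2.T_le A
  have k1b : ∀ A A', |(q1.comp T2) A A'| ≤ K ^ 2 * ν A * ν A' := by
    intro A A'
    refine (D1.q_le (T2 A) A').trans ?_
    refine mul_le_mul_of_nonneg_right ?_ (hν A')
    rw [pow_two, mul_assoc]
    exact mul_le_mul_of_nonneg_left (D2.T_le A) hK0
  have k2b : ∀ A A', |(q1.compl₂ T2) A A'| ≤ K ^ 2 * ν A * ν A' := by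
    intro A A'
    refine (D1.q_le A (T2 A')).trans ?_
    have a1 := mul_le_mul_of_nonneg_left (D2.T_le A') (mul_nonneg hK0 (hν A))
    refine a1.trans (le_of_eq ?_)
    ring
  -- the functions
  have gb1 := gl B1 K D1.B_le
  have gb2 := gl B2 K D2.B_le
  have gb3 := gl B3 K D3.B_le
  have gQ1 := gk q1 K D1.q_le
  have gL2 := gl l2 _ l2b
  have gL3 := gl l3 _ l3b
  have gm := gl m _ mb
  have gL2T : Gf (fun ω => l2 (T3 (Y ω))) := gl (l2.comp T3) _ l2T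
  have gL3T : Gf (fun ω => l3 (T2 (Y ω))) := gl (l3.comp T2) _ l3T
  have gmT : Gf (fun ω => m (T3 (Y ω))) := gl (m.comp T3) _ mT
  have gbT : Gf (fun ω => B3 (T2 (Y ω))) := gl (B3.comp T2) _ bT
  have gS1 : Gf (fun ω => q1 (T2 (Y ω)) (Y ω)) := gk (q1.comp T2) _ k1b
  have gS2 : Gf (fun ω => q1 (Y ω) (T2 (Y ω))) := gk (q1.compl₂ T2) _ k2b
  -- the identities
  have Za : ∫ ω, ((l2 (Y ω) * B3 (Y ω) + B2 (Y ω) * l3 (Y ω)) -
      β * (B2 (Y ω) * B3 (Y ω) * h1 ω)) ∂μ = 0 := by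
    rw [integral_sub (((gL2.mul gb3).add (gb2.mul gL3)).int μ) ((((gb2.mul gb3).mul gh1).cmul β).int μ),
      integral_const_mul, ← D1.sd2 B2 B3 ⟨K, D2.B_le⟩ ⟨K, D3.B_le⟩, sub_eq_zero]
    refine integral_congr_ae (Filter.Eventually.of_forall fun ω => ?_)
    simp only [map_add, e21, e31, zero_add, l2a, l3a]
  have Zb : ∫ ω, ((l2 c3 + l2 (T3 (Y ω))) - β * (l2 (Y ω) * h3 ω)) ∂μ = 0 := by
    rw [integral_sub (((Gf.cst (l2 c3)).add gL2T).int μ) (((gL2.mul gh3).cmul β).int μ),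
      integral_const_mul, ← D3.sd1 l2 ⟨_, l2b⟩, sub_eq_zero]
    refine integral_congr_ae (Filter.Eventually.of_forall fun ω => ?_)
    simp only [map_add]
  have Zc : ∫ ω, ((l3 c2 + l3 (T2 (Y ω))) - β * (l3 (Y ω) * h2 ω)) ∂μ = 0 := by
    rw [integral_sub (((Gf.cst (l3 c2)).add gL3T).int μ) (((gL3.mul gh2).cmul β).int μ),
      integral_const_mul, ← D2.sd1 l3 ⟨_, l3b⟩, sub_eq_zero]
    refine integral_congr_ae (Filter.Eventually.of_forall fun ω => ?_)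
    simp only [map_add]
  have Ze : ∫ ω, ((m c3 + m (T3 (Y ω))) - β * (m (Y ω) * h3 ω)) ∂μ = 0 := by
    rw [integral_sub (((Gf.cst (m c3)).add gmT).int μ) (((gm.mul gh3).cmul β).int μ),
      integral_const_mul, ← D3.sd1 m ⟨_, mb⟩, sub_eq_zero]
    refine integral_congr_ae (Filter.Eventually.of_forall fun ω => ?_)
    simp only [map_add]
  have Zd : ∫ ω, ((B3 (T2 (Y ω)) * q1 (Y ω) (Y ω) + B3 (Y ω) * (m (Y ω) +
      (q1 (T2 (Y ω)) (Y ω) + q1 (Y ω) (T2 (Y ω))))) -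
      β * (B3 (Y ω) * q1 (Y ω) (Y ω) * h2 ω)) ∂μ = 0 := by
    rw [integral_sub (((gbT.mul gQ1).add (gb3.mul (gm.add (gS1.add gS2)))).int μ)
      ((((gb3.mul gQ1).mul gh2).cmul β).int μ),
      integral_const_mul, ← D2.sd3 B3 q1 ⟨K, D3.B_le⟩ ⟨K, D1.q_le⟩, sub_eq_zero]
    refine integral_congr_ae (Filter.Eventually.of_forall fun ω => ?_)
    simp only [map_add, e32, zero_add, ma, LinearMap.add_apply]
    ring
  obtain ⟨za, hza⟩ : ∃ z : Ω → ℝ, z = fun ω => ((l2 (Y ω) * B3 (Y ω) + B2 (Y ω) * l3 (Y ω)) -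
      β * (B2 (Y ω) * B3 (Y ω) * h1 ω)) := ⟨_, rfl⟩
  obtain ⟨zb, hzb⟩ : ∃ z : Ω → ℝ, z = fun ω => ((l2 c3 + l2 (T3 (Y ω))) -
      β * (l2 (Y ω) * h3 ω)) := ⟨_, rfl⟩
  obtain ⟨zc, hzc⟩ : ∃ z : Ω → ℝ, z = fun ω => ((l3 c2 + l3 (T2 (Y ω))) -
      β * (l3 (Y ω) * h2 ω)) := ⟨_, rfl⟩
  obtain ⟨zd, hzd⟩ : ∃ z : Ω → ℝ, z = fun ω => ((B3 (T2 (Y ω)) * q1 (Y ω) (Y ω) + B3 (Y ω) *
      (m (Y ω) + (q1 (T2 (Y ω)) (Y ω) + q1 (Y ω) (T2 (Y ω))))) -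
      β * (B3 (Y ω) * q1 (Y ω) (Y ω) * h2 ω)) := ⟨_, rfl⟩
  obtain ⟨ze, hze⟩ : ∃ z : Ω → ℝ, z = fun ω => ((m c3 + m (T3 (Y ω))) -
      β * (m (Y ω) * h3 ω)) := ⟨_, rfl⟩
  have gza : Gf za := by
    rw [hza]
    exact ((gL2.mul gb3).add (gb2.mul gL3)).sub (((gb2.mul gb3).mul gh1).cmul β)
  have gzb : Gf zb := by
    rw [hzb]
    exact ((Gf.cst (l2 c3)).add gL2T).sub ((gL2.mul gh3).cmul β)
  have gzc : Gf zc := by
    rw [hzc]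
    exact ((Gf.cst (l3 c2)).add gL3T).sub ((gL3.mul gh2).cmul β)
  have gzd : Gf zd := by
    rw [hzd]
    exact ((gbT.mul gQ1).add (gb3.mul (gm.add (gS1.add gS2)))).sub
      (((gb3.mul gQ1).mul gh2).cmul β)
  have gze : Gf ze := by
    rw [hze]
    exact ((Gf.cst (m c3)).add gmT).sub ((gm.mul gh3).cmul β)
  have Za' : ∫ ω, za ω ∂μ = 0 := by rw [hza]; exact Za
  have Zb' : ∫ ω, zb ω ∂μ = 0 := by rw [hzb]; exact Zb
  have Zc' : ∫ ω, zc ω ∂μ = 0 := by rw [hzc]; exact Zc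
  have Zd' : ∫ ω, zd ω ∂μ = 0 := by rw [hzd]; exact Zd
  have Ze' : ∫ ω, ze ω ∂μ = 0 := by rw [hze]; exact Ze
  obtain ⟨b, hb⟩ : ∃ z : Ω → ℝ, z = fun ω => B1 (Y ω) * B2 (Y ω) * B3 (Y ω) := ⟨_, rfl⟩
  have gb : Gf b := by
    rw [hb]
    exact (gb1.mul gb2).mul gb3
  have key1 : ∫ ω, (β ^ 2 * b ω + β * za ω + zb ω + zc ω - β * zd ω - ze ω) ∂μ =
      β ^ 2 * ∫ ω, b ω ∂μ := by
    have i1 := (gb.cmul (β ^ 2)).add (gza.cmul β)
    have i2 := i1.add gzb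
    have i3 := i2.add gzc
    have i4 := i3.sub (gzd.cmul β)
    rw [integral_sub (i4.int μ) (gze.int μ), integral_sub (i3.int μ) ((gzd.cmul β).int μ),
      integral_add (i2.int μ) (gzc.int μ), integral_add (i1.int μ) (gzb.int μ),
      integral_add ((gb.cmul (β ^ 2)).int μ) ((gza.cmul β).int μ), integral_const_mul,
      integral_const_mul, integral_const_mul, Za', Zb', Zc', Zd', Ze']
    ring
  obtain ⟨Λ, hΛ⟩ : ∃ x, x = B2 (T1 c3) + B3 (T1 c2) - q1 c2 c3 - q1 c3 c2 := ⟨_, rfl⟩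
  obtain ⟨R2, hR2⟩ : ∃ z : Ω → ℝ, z = fun ω => q2 (Y ω) (Y ω) +
      (h2 ω - B2 (Y ω) - q2 (Y ω) (Y ω)) := ⟨_, rfl⟩
  obtain ⟨R3, hR3⟩ : ∃ z : Ω → ℝ, z = fun ω => q3 (Y ω) (Y ω) +
      (h3 ω - B3 (Y ω) - q3 (Y ω) (Y ω)) := ⟨_, rfl⟩
  have gR2 : Gf R2 := by
    rw [hR2]
    exact (gk q2 K D2.q_le).add gr2
  have gR3 : Gf R3 := by
    rw [hR3]
    exact (gk q3 K D3.q_le).add gr3
  obtain ⟨er, her⟩ : ∃ z : Ω → ℝ, z = fun ω => l2 (T3 (Y ω)) + l3 (T2 (Y ω)) - m (T3 (Y ω)) -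
      β * (l2 (Y ω) * R3 ω) - β * (l3 (Y ω) * R2 ω) - β * (B3 (T2 (Y ω)) * q1 (Y ω) (Y ω)) -
      β * (B3 (Y ω) * (q1 (T2 (Y ω)) (Y ω) + q1 (Y ω) (T2 (Y ω)))) +
      β * (m (Y ω) * R3 ω) + β ^ 2 * (B3 (Y ω) * q1 (Y ω) (Y ω) * R2 ω) -
      β ^ 2 * (B2 (Y ω) * B3 (Y ω) * (h1 ω - B1 (Y ω) - q1 (Y ω) (Y ω))) := ⟨_, rfl⟩
  have ger : Gf er := by
    rw [her]
    exact (((((((((gL2T.add gL3T).sub gmT).sub ((gL2.mul gR3).cmul β)).sub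
      ((gL3.mul gR2).cmul β)).sub ((gbT.mul gQ1).cmul β)).sub
      ((gb3.mul (gS1.add gS2)).cmul β)).add ((gm.mul gR3).cmul β)).add
      (((gb3.mul gQ1).mul gR2).cmul (β ^ 2))).sub (((gb2.mul gb3).mul gr1).cmul (β ^ 2)))
  have key2 : ∀ ω, β ^ 2 * b ω + β * za ω + zb ω + zc ω - β * zd ω - ze ω = Λ + er ω := by
    intro ω
    rw [hb, hza, hzb, hzc, hzd, hze, hΛ, her, hR2, hR3]
    simp only [l2a, l3a, ma]
    ring
  have key3 : β ^ 2 * ∫ ω, b ω ∂μ - Λ = ∫ ω, er ω ∂μ := by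
    rw [← key1, integral_congr_ae (Filter.Eventually.of_forall key2),
      integral_add ((Gf.cst Λ).int μ) (ger.int μ), integral_const, probReal_univ, one_smul]
    ring
  rw [← hΛ]
  have key4 : ∫ ω, B1 (Y ω) * B2 (Y ω) * B3 (Y ω) ∂μ = ∫ ω, b ω ∂μ := by rw [hb]
  rw [key4, key3]
  -- the pointwise bound
  obtain ⟨G, hG⟩ : ∃ G : ℝ → ℝ, G = fun n => 4 * K ^ 3 * n + 11 * K ^ 4 * β * n ^ 3 +
      3 * K ^ 4 * β ^ 2 * n ^ 5 := ⟨_, rfl⟩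
  have hRle : ∀ (q : E →ₗ[ℝ] E →ₗ[ℝ] ℝ) (x : ℝ) (ω : Ω), (∀ A A', |q A A'| ≤ K * ν A * ν A') →
      |x| ≤ K * ν (Y ω) ^ 3 → |q (Y ω) (Y ω) + x| ≤ 2 * K ^ 2 * ν (Y ω) ^ 2 := by
    intro q x ω hq hx
    have n0 := hn0 ω
    have n1 := hYK ω
    have a1 := hq (Y ω) (Y ω)
    have a2 : K * ν (Y ω) * ν (Y ω) ≤ K ^ 2 * ν (Y ω) ^ 2 := by
      have : K * (ν (Y ω) ^ 2) ≤ K * K * (ν (Y ω) ^ 2) := by
        refine mul_le_mul_of_nonneg_right ?_ (by positivity)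
        nlinarith
      nlinarith
    have a3 : K * ν (Y ω) ^ 3 ≤ K ^ 2 * ν (Y ω) ^ 2 := by
      have : K * ν (Y ω) ^ 2 * ν (Y ω) ≤ K * ν (Y ω) ^ 2 * K :=
        mul_le_mul_of_nonneg_left n1 (by positivity)
      nlinarith
    refine (abs_add_le _ _).trans ?_
    linarith
  have hpt : ∀ ω, |er ω| ≤ G (ν (Y ω)) := by
    intro ω
    have n0 := hn0 ω
    have n1 := hYK ω
    have r3 : |R3 ω| ≤ 2 * K ^ 2 * ν (Y ω) ^ 2 := by
      rw [hR3]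
      exact hRle q3 _ ω D3.q_le (D3.h_le ω)
    have r2 : |R2 ω| ≤ 2 * K ^ 2 * ν (Y ω) ^ 2 := by
      rw [hR2]
      exact hRle q2 _ ω D2.q_le (D2.h_le ω)
    have v2 := D2.B_le (Y ω)
    have v3 := D3.B_le (Y ω)
    have vQ : |q1 (Y ω) (Y ω)| ≤ K * ν (Y ω) ^ 2 := by
      refine (D1.q_le (Y ω) (Y ω)).trans (le_of_eq ?_)
      ring
    have vS : |q1 (T2 (Y ω)) (Y ω) + q1 (Y ω) (T2 (Y ω))| ≤ 2 * K ^ 2 * ν (Y ω) ^ 2 := by
      have a1 : |q1 (T2 (Y ω)) (Y ω)| ≤ K ^ 2 * ν (Y ω) * ν (Y ω) := k1b (Y ω) (Y ω)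
      have a2 : |q1 (Y ω) (T2 (Y ω))| ≤ K ^ 2 * ν (Y ω) * ν (Y ω) := k2b (Y ω) (Y ω)
      refine (abs_add_le _ _).trans ?_
      linarith
    have t3 : 0 ≤ ν (Y ω) ^ 3 := by positivity
    have t5 : 0 ≤ ν (Y ω) ^ 5 := by positivity
    have K34 : K ^ 3 ≤ K ^ 4 := pow_le_pow_right₀ hK (by norm_num)
    rw [hG, her]
    refine err_le hβ (l2T _) (l3T _) (mT _) ?_ ?_ ?_ ?_ ?_ ?_ ?_
    · refine (mul_le' (l2b _) r3).trans (le_of_eq ?_)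
      ring
    · refine (mul_le' (l3b _) r2).trans (le_of_eq ?_)
      ring
    · refine (mul_le' (bT _) vQ).trans ?_
      have := mul_le_mul_of_nonneg_right K34 t3
      linarith
    · refine (mul_le' v3 vS).trans ?_
      have := mul_le_mul_of_nonneg_right K34 t3
      linarith
    · refine (mul_le' (mb _) r3).trans (le_of_eq ?_)
      ring
    · refine (mul_le' (mul_le' v3 vQ) r2).trans (le_of_eq ?_)
      ring
    · refine (mul_le' (mul_le' v2 v3) (D1.h_le ω)).trans ?_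
      have := mul_le_mul_of_nonneg_right K34 t5
      linarith
  have hGmono : ∀ x y : ℝ, 0 ≤ x → x ≤ y → G x ≤ G y := by
    intro x y hx hxy
    rw [hG]
    have a3 := pow_le_pow_left₀ hx hxy 3
    have a5 := pow_le_pow_left₀ hx hxy 5
    have c0 : 0 ≤ 4 * K ^ 3 := by positivity
    have c1 : 0 ≤ 11 * K ^ 4 * β := by positivity
    have c2 : 0 ≤ 3 * K ^ 4 * β ^ 2 := by positivity
    have d0 := mul_le_mul_of_nonneg_left hxy c0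
    have d1 := mul_le_mul_of_nonneg_left a3 c1
    have d2 := mul_le_mul_of_nonneg_left a5 c2
    show 4 * K ^ 3 * x + 11 * K ^ 4 * β * x ^ 3 + 3 * K ^ 4 * β ^ 2 * x ^ 5 ≤
      4 * K ^ 3 * y + 11 * K ^ 4 * β * y ^ 3 + 3 * K ^ 4 * β ^ 2 * y ^ 5
    linarith
  have hG0 : ∀ x : ℝ, 0 ≤ x → 0 ≤ G x := by
    intro x hx
    rw [hG]
    positivity
  obtain ⟨S, hS⟩ : ∃ S : Set Ω, S = {ω | M < ν (Y ω)} := ⟨_, rfl⟩
  have hSm : MeasurableSet S := by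
    rw [hS]
    exact measurableSet_lt measurable_const hνm
  have hbound : ∀ ω, ‖er ω‖ ≤ G M + S.indicator (fun _ => G K) ω := by
    intro ω
    rw [Real.norm_eq_abs]
    refine (hpt ω).trans ?_
    by_cases hω : ω ∈ S
    · rw [Set.indicator_of_mem hω]
      have := hGmono _ _ (hn0 ω) (hYK ω)
      have := hG0 M hM
      linarith
    · rw [Set.indicator_of_notMem hω, add_zero]
      refine hGmono _ _ (hn0 ω) ?_
      rw [hS] at hω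
      exact not_lt.1 hω
  have hindint : Integrable (S.indicator (fun _ : Ω => G K)) μ :=
    (integrable_const (G K)).indicator hSm
  have hfin := norm_integral_le_of_norm_le ((integrable_const (G M)).add hindint)
    (Filter.Eventually.of_forall hbound)
  rw [← Real.norm_eq_abs]
  refine hfin.trans ?_
  simp only [Pi.add_apply]
  rw [integral_add (integrable_const (G M)) hindint, integral_const, probReal_univ, one_smul,
    integral_indicator hSm, setIntegral_const, smul_eq_mul]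
  rw [← hS] at hbad
  have hGK := hG0 K hK0
  have f1 : μ.real S * G K ≤ p * G K := mul_le_mul_of_nonneg_right hbad hGK
  have f2 : G M ≤ 20 * K ^ 9 * (M + β * M ^ 3 + β ^ 2 * M ^ 5) := by
    rw [hG]
    have e1 : K ^ 3 ≤ K ^ 9 := pow_le_pow_right₀ hK (by norm_num)
    have e2 : K ^ 4 ≤ K ^ 9 := pow_le_pow_right₀ hK (by norm_num)
    have e3 : 0 ≤ K ^ 9 := by positivity
    have g1 : K ^ 3 * M ≤ K ^ 9 * M := mul_le_mul_of_nonneg_right e1 hM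
    have g2 : K ^ 4 * (β * M ^ 3) ≤ K ^ 9 * (β * M ^ 3) :=
      mul_le_mul_of_nonneg_right e2 (by positivity)
    have g3 : K ^ 4 * (β ^ 2 * M ^ 5) ≤ K ^ 9 * (β ^ 2 * M ^ 5) :=
      mul_le_mul_of_nonneg_right e2 (by positivity)
    have g4 : 0 ≤ K ^ 9 * M := by positivity
    have g5 : 0 ≤ K ^ 9 * (β * M ^ 3) := by positivity
    have g6 : 0 ≤ K ^ 9 * (β ^ 2 * M ^ 5) := by positivity
    show 4 * K ^ 3 * M + 11 * K ^ 4 * β * M ^ 3 + 3 * K ^ 4 * β ^ 2 * M ^ 5 ≤ _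
    linarith
  have f3 : G K ≤ 20 * K ^ 9 * (1 + β + β ^ 2) := by
    rw [hG]
    have e1 : K ^ 4 ≤ K ^ 9 := pow_le_pow_right₀ hK (by norm_num)
    have e2 : K ^ 7 ≤ K ^ 9 := pow_le_pow_right₀ hK (by norm_num)
    have e3 : 0 ≤ K ^ 9 := by positivity
    have g2 : K ^ 7 * β ≤ K ^ 9 * β := mul_le_mul_of_nonneg_right e2 hβ
    have g5 : 0 ≤ K ^ 9 * β := by positivity
    have g6 : 0 ≤ K ^ 9 * β ^ 2 := by positivity
    have e : 4 * K ^ 3 * K + 11 * K ^ 4 * β * K ^ 3 + 3 * K ^ 4 * β ^ 2 * K ^ 5 =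
      4 * K ^ 4 + 11 * (K ^ 7 * β) + 3 * (K ^ 9 * β ^ 2) := by ring
    show 4 * K ^ 3 * K + 11 * K ^ 4 * β * K ^ 3 + 3 * K ^ 4 * β ^ 2 * K ^ 5 ≤ _
    rw [e]
    linarith
  have f4 : p * G K ≤ p * (20 * K ^ 9 * (1 + β + β ^ 2)) := mul_le_mul_of_nonneg_left f3 hp
  linarith

end Pool.Agent.H23.GLU
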